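import Mathlib
import Pool.Agent.P8H6.Orb.Exact
import Pool.Agent.N900.FC.BoxQ

set_option autoImplicit false

/-!
# Almost every set of `8 k ^ 2 + 1` times contains `k + 1` consecutive prime times of `x ↦ 2 x - 1`

For a prime `p` consider the orbit `p, 2 p - 1, 4 p - 3, ...` of the map `x ↦ 2 x - 1`. A finite set `F` of
natural numbers is a set of consecutive prime times if, for infinitely many primes `p`, the terms of this orbit
up to the time `max F - min F` are prime exactly at the times `f - min F`, `f ∈ F`. Let `T > 8 k ^ 2`. All but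
a proportion `C n ^ (-c)` of the `T`-tuples of different times from finite sets `V_1, ..., V_T` with at least
`n` elements each contain `k + 1` consecutive prime times. (The question asks whether
`{0, 1}` is a set of consecutive prime times.)

Proof: a coloured Maynard-Tao theorem with `T` classes of `K` linear forms `2 ^ h n + 1`: the weighted sum over
the classes of `N - (k / 2) N (N - 1)`, `N` the number of primes in the class, exceeds `k` (the sieve of
`Pool.Agent.H362R2.CM`), so that a window lemma gives `k + 1` consecutive primes in different classes. Hence the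
exceptional tuples contain no complete `T`-partite configuration with parts of size `K`, and the theorem of Erdős
on such hypergraphs applies.
-/

namespace Pool.Agent.Results.MP_0fefc4_nt.AlmostEverySetOfTimes

open Finset

/-- `F` is a set of consecutive prime times: with `m` the smallest element of `F`, there are infinitely many
primes `p` such that for every `e ≤ max F - m` the `e`-th iterate of `x ↦ 2 x - 1` at `p` is prime if and only if
`m + e ∈ F` -/
def ConsecutivePrimeTimes (F : Finset ℕ) : Prop :=
  ∃ m : ℕ, m ∈ F ∧ (∀ f ∈ F, m ≤ f) ∧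
    {p : ℕ | p.Prime ∧ ∀ e : ℕ, (∃ f ∈ F, m + e ≤ f) →
      (((fun x : ℕ => 2 * x - 1)^[e] p).Prime ↔ m + e ∈ F)}.Infinite

/-- the tuples of different times from `V_1, ..., V_T`, no `k + 1` elements of which form a set of consecutive
prime times -/
def Exceptional (k : ℕ) {T : ℕ} (V : Fin T → Finset ℕ) : Set (Fin T → ℕ) :=
  {v | (∀ i, v i ∈ V i) ∧ Function.Injective v ∧
    ¬ ∃ F : Finset ℕ, (∀ f ∈ F, f ∈ Set.range v) ∧ F.card = k + 1 ∧ ConsecutivePrimeTimes F}

theorem result (k T : ℕ) (hk : 1 ≤ k) (hT : 8 * k ^ 2 < T) : ∃ c C : ℝ, 0 < c ∧ 0 < C ∧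
    ∀ (n : ℕ) (V : Fin T → Finset ℕ), 1 ≤ n → (∀ i, n ≤ (V i).card) →
      ((Exceptional k V).ncard : ℝ) ≤ C / (n : ℝ) ^ c * ∏ i, ((V i).card : ℝ) := by
  classical
  obtain ⟨K, hK⟩ := Pool.Agent.P8H6.Orb.no_box k T hk hT
  obtain ⟨c, C, hc, -, hC, hbox⟩ := Pool.Agent.N900.FC.box_saving T K
  refine ⟨c, C, hc, by linarith, ?_⟩
  intro n V hn hV
  have h1 : Exceptional k V = ((Pool.Agent.P8H6.Orb.Exc k V : Finset (Fin T → ℕ)) :
      Set (Fin T → ℕ)) := by
    ext v
    unfold Exceptional Pool.Agent.P8H6.Orb.Exc
    rw [Set.mem_ofPred_eq, mem_coe, mem_filter, Fintype.mem_piFinset]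
    rfl
  rw [h1, Set.ncard_coe_finset]
  exact hbox ℕ V n hn hV (Pool.Agent.P8H6.Orb.Exc k V) (by
    unfold Pool.Agent.P8H6.Orb.Exc
    exact filter_subset _ _) (hK V)

end Pool.Agent.Results.MP_0fefc4_nt.AlmostEverySetOfTimes
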