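import Pool.Agent.P8H13.AD.ItMain

/-!
# In every progression of `ℓ` integers `k`: one of `k, 2 k, 3 k` is a first return time of `x ↦ 2 x - 1` to the primes

Let `S x = 2 x - 1`. The question is whether there are infinitely many primes `p` for which `S p` is prime. Call `t` a
first return time of `p` if `p` and `S^t(p)` are prime and `S(p), ..., S^(t-1)(p)` are composite; the question is
whether `1` is the first return time of infinitely many primes.

Let `m 0, ..., m 3` be distinct natural numbers. Call `k` good if one of the times `t = |m j - m i| k` has the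
following property: for every length `l` there are, for arbitrarily large `x`, progressions
`m, m + D, ..., m + (l - 1) D` of `l` primes all of which have the first return time `t`, with a difference
`D ≤ (log x) ^ C`, and at least `x / (log x) ^ C` of them with `m ≤ x`.

1. There is a number `ℓ`, which depends only on the `m i`, such that EVERY arithmetic progression
`x, x + d, ..., x + (ℓ - 1) d` of positive integers contains a good `k`.
2. So (by Szemerédi's theorem) the set of the bad `k` has upper Banach density `0`: for every `ε > 0` there is `L` such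
that in every window `(u, u + T]` with `T ≥ L` all but `ε T` of the `k` are good.

For `m = (0, 1, 2, 3)`: one of `k, 2 k, 3 k`.

Proof: if all members of a long progression were bad, there would be four classes of times such that the differences
between the classes `i` and `j` are of the form `(m j - m i) k` with `k` bad; the coloured Maynard-Tao theorem along
narrow progressions (`Pool.Agent.Y827.RO.narR`, starting files) gives long narrow progressions of `n` such that two
classes contain times at which the iterate of `n` is prime, all iterates at times outside the classes being composite;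
by van der Waerden's theorem the exact set of the prime times is constant along a subprogression, and two neighbours
in it are in different classes. The second part follows by the density Hales-Jewett theorem
(`Pool.Agent.Y863.AA.msz`, starting files).
-/

set_option autoImplicit false

namespace Pool.Agent.Results.MP_0fefc4_nt.FirstReturnTimes

open Finset Filter

/-- the map `x ↦ 2 x - 1` -/
def S (x : ℕ) : ℕ := 2 * x - 1

/-- `p` is a prime and `t` is the least positive time at which the iterate of `S` at `p` is prime -/
def FirstReturn (t p : ℕ) : Prop :=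
  p.Prime ∧ (S^[t] p).Prime ∧ ∀ s : ℕ, 0 < s → s < t → ¬ (S^[s] p).Prime

/-- For every length `l` there is `C` such that for arbitrarily large `x` there is a difference
`1 ≤ D ≤ (log x) ^ C` for which at least `x / (log x) ^ C` of the `1 ≤ m ≤ x` are such that all the `l` numbers
`p = m, m + D, ..., m + (l - 1) D` are primes with the first return time `t`. -/
def AllLengths (t : ℕ) : Prop := ∀ l : ℕ, ∃ C : ℕ, ∃ᶠ x : ℕ in atTop, ∃ D : ℕ, 1 ≤ D ∧
  (D : ℝ) ≤ Real.log x ^ C ∧ (x : ℝ) / Real.log x ^ C ≤
    ({m : ℕ | 1 ≤ m ∧ m ≤ x ∧ ∀ j < l, FirstReturn t (m + j * D)}.ncard : ℝ)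

theorem iter_eq (p t : ℕ) (hp : 1 ≤ p) : S^[t] p = Pool.Agent.P8H13.AD.gI t p := by
  unfold Pool.Agent.P8H13.AD.gI
  induction t with
  | zero => simp; omega
  | succ t ih =>
    rw [Function.iterate_succ_apply', ih]
    unfold S
    rw [pow_succ]
    have : 2 * (2 ^ t * (p - 1) + 1) = 2 ^ t * 2 * (p - 1) + 2 := by ring
    omega

theorem firstReturn_iff (t p : ℕ) : FirstReturn t p ↔ Pool.Agent.P8H13.AD.RetP t p := by
  unfold FirstReturn Pool.Agent.P8H13.AD.RetP
  constructor
  · rintro ⟨h1, h2, h3⟩
    have hp := h1.one_lt.le
    exact ⟨h1, by rw [← iter_eq p t hp]; exact h2, fun s hs hst => by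
      rw [← iter_eq p s hp]; exact h3 s hs hst⟩
  · rintro ⟨h1, h2, h3⟩
    have hp := h1.one_lt.le
    exact ⟨h1, by rw [iter_eq p t hp]; exact h2, fun s hs hst => by
      rw [iter_eq p s hp]; exact h3 s hs hst⟩

theorem of_narRet {t : ℕ} (h : Pool.Agent.P8H13.AD.NarRet t) : AllLengths t := by
  classical
  intro l
  obtain ⟨C, hC⟩ := h l
  refine ⟨C, hC.mono ?_⟩
  rintro x ⟨D, h1, h2, h3⟩
  refine ⟨D, h1, h2, h3.trans (le_of_eq ?_)⟩
  unfold Pool.Agent.P8H13.AD.cR
  rw [← Set.ncard_coe_finset]
  congr 2
  ext m
  rw [mem_coe, mem_filter, mem_Icc, Set.mem_ofPred_eq, and_assoc]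
  simp only [firstReturn_iff]

/-- `k` is good: one of the times `(m j - m i) k`, `m i < m j`, is a first return time along long narrow
progressions of primes. -/
def Good (m : Fin 4 → ℕ) (k : ℕ) : Prop := ∃ i j, m i < m j ∧ AllLengths ((m j - m i) * k)

theorem good_of {m : Fin 4 → ℕ} {k : ℕ} (h : Pool.Agent.P8H13.AD.GoodT m k) : Good m k := by
  obtain ⟨i, j, hij, h⟩ := h
  exact ⟨i, j, hij, of_narRet h⟩

open Classical in
theorem result (m : Fin 4 → ℕ) (hm : Function.Injective m) :
    (∃ ℓ : ℕ, ∀ x d : ℕ, 1 ≤ x → 1 ≤ d → ∃ t < ℓ, Good m (x + t * d)) ∧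
    ∀ ε : ℝ, 0 < ε → ∃ L : ℕ, ∀ u T : ℕ, L ≤ T →
      (1 - ε) * (T : ℝ) ≤ (((Ioc u (u + T)).filter (fun k => Good m k)).card : ℝ) := by
  constructor
  · obtain ⟨ℓ, h⟩ := Pool.Agent.P8H13.AD.retAP m hm
    refine ⟨ℓ, fun x d hx hd => ?_⟩
    obtain ⟨t, ht, hg⟩ := h x d hx hd
    exact ⟨t, ht, good_of hg⟩
  · intro ε hε
    obtain ⟨L, hL⟩ := Pool.Agent.P8H13.AD.allRet m hm ε hε
    refine ⟨L, fun u T hT => (hL u T hT).trans ?_⟩
    rw [Nat.cast_le]
    apply card_le_card
    intro k hk
    rw [mem_filter] at hk ⊢
    exact ⟨hk.1, good_of hk.2⟩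

end Pool.Agent.Results.MP_0fefc4_nt.FirstReturnTimes
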