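import Pool.Agent.P8H6.Orb2.Main

set_option autoImplicit false

/-!
# Almost every set of `T` times: all patterns on `5 T / 18` of its elements along narrow progressions

The orbit of a natural number `s` under `x ↦ 2 x - 1` is `s, 2 s - 1, 4 s - 3, ...`. The question is whether for
infinitely many `s` both `s` and `2 s - 1` are prime. Here the times `0, 1` are replaced by sets of `T` times. For
every `T` there are `c > 0` and `C` such that for ALL finite sets `V_1, ..., V_T` of at least `n` natural numbers all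
but `C n ^ (-c) |V_1| ... |V_T|` of the sets `H = {v_1, ..., v_T}` of `T` different times, `v_i ∈ V_i`, contain a set
`F` of at least `5 T / 18` times such that every subset `J` of `F` is a complete set of prime times inside `H`, for
many starting values: for every length `l` and for arbitrarily large `x` there is `1 ≤ D ≤ (log x) ^ C'` such that for
at least `x / (log x) ^ C'` of the `m ≤ x` the times in `H` at which the orbits of `s = m, m + D, ..., m + (l - 1) D`
are prime are exactly the elements of `J`, for each of the `l` starting values.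

Proof: the coloured Maynard-Tao theorem with all patterns along narrow progressions (the proof of
`Pool.Agent.Y827.HN.patR`, starting files, which gives the patterns on whole transversals,
`Pool.Agent.P8H6.Nar.patTD`), for the forms `2 ^ t n + 1`, and the box theorem with a power saving
(`Pool.Agent.N900.FC.box_saving`, starting files).
-/

namespace Pool.Agent.Results.MP_0fefc4_nt.PatternsOfTimes

open Finset Filter

/-- of the times in `H` exactly those in `J` are times at which the orbit of `s` under `x ↦ 2 x - 1` is prime -/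
def Pattern (H J : Finset ℕ) (s : ℕ) : Prop :=
  ∀ t ∈ H, (((fun x : ℕ => 2 * x - 1)^[t] s).Prime ↔ t ∈ J)

/-- for every length `l` there is `C` such that for arbitrarily large `x` every `J ⊆ F` has a difference
`1 ≤ D ≤ (log x) ^ C` for which at least `x / (log x) ^ C` of the `2 ≤ m ≤ x + 1` are such that the pattern `J` (in
`H`) occurs for all the starting values `m, m + D, ..., m + (l - 1) D` -/
def AllLengths (H F : Finset ℕ) : Prop :=
  ∀ l : ℕ, ∃ C : ℕ, ∃ᶠ x : ℕ in atTop, ∀ J ⊆ F, ∃ D : ℕ, 1 ≤ D ∧ (D : ℝ) ≤ Real.log x ^ C ∧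
    (x : ℝ) / Real.log x ^ C ≤
      ({m : ℕ | 2 ≤ m ∧ m ≤ x + 1 ∧ ∀ j < l, Pattern H J (m + j * D)}.ncard : ℝ)

/-- the `T`-tuples `v ∈ V_1 × ... × V_T` of different times without a set `F` of at least `5 T / 18` of the times
with the property `AllLengths` -/
def Exceptional {T : ℕ} (V : Fin T → Finset ℕ) : Set (Fin T → ℕ) :=
  {v | (∀ i, v i ∈ V i) ∧ Function.Injective v ∧
    ¬ ∃ F : Finset ℕ, F ⊆ univ.image v ∧ 5 * T ≤ 18 * F.card ∧ AllLengths (univ.image v) F}

theorem iter_eq (t n : ℕ) : (fun x : ℕ => 2 * x - 1)^[t] (n + 1) = 2 ^ t * n + 1 := by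
  induction t with
  | zero => simp
  | succ t ih =>
    rw [Function.iterate_succ_apply', ih, pow_succ]
    show 2 * (2 ^ t * n + 1) - 1 = 2 ^ t * 2 * n + 1
    have : 2 * (2 ^ t * n + 1) = 2 ^ t * 2 * n + 2 := by ring
    omega

theorem count_eq (H J : Finset ℕ) (l x D : ℕ) :
    {m : ℕ | 2 ≤ m ∧ m ≤ x + 1 ∧ ∀ j < l, Pattern H J (m + j * D)}.ncard =
      {m : ℕ | 1 ≤ m ∧ m ≤ x ∧ ∀ j < l, Pool.Agent.P8H6.Orb2.Pt H J (m + j * D)}.ncard := by
  have h1 : {m : ℕ | 2 ≤ m ∧ m ≤ x + 1 ∧ ∀ j < l, Pattern H J (m + j * D)} = (fun m => m + 1) ''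
      {m : ℕ | 1 ≤ m ∧ m ≤ x ∧ ∀ j < l, Pool.Agent.P8H6.Orb2.Pt H J (m + j * D)} := by
    ext m
    constructor
    · rintro ⟨h2, h3, h4⟩
      refine ⟨m - 1, ⟨by omega, by omega, fun j hj t ht => ?_⟩, show m - 1 + 1 = m by omega⟩
      have h5 := h4 j hj t ht
      rw [show m + j * D = (m - 1 + j * D) + 1 by omega, iter_eq] at h5
      exact h5
    · rintro ⟨m', ⟨h2, h3, h4⟩, rfl⟩
      refine ⟨show 2 ≤ m' + 1 by omega, show m' + 1 ≤ x + 1 by omega, fun j hj t ht => ?_⟩
      show ((fun x : ℕ => 2 * x - 1)^[t] (m' + 1 + j * D)).Prime ↔ t ∈ J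
      rw [show m' + 1 + j * D = (m' + j * D) + 1 by omega, iter_eq]
      exact h4 j hj t ht
  rw [h1, Set.ncard_image_of_injective _ (fun a b h => by simpa using h)]

theorem result (T : ℕ) (hT : 1 ≤ T) : ∃ c C : ℝ, 0 < c ∧ 0 < C ∧
    ∀ (n : ℕ) (V : Fin T → Finset ℕ), 1 ≤ n → (∀ i, n ≤ (V i).card) →
      ((Exceptional V).ncard : ℝ) ≤ C / (n : ℝ) ^ c * ∏ i, ((V i).card : ℝ) := by
  classical
  obtain ⟨c, C, hc, hC, h⟩ := Pool.Agent.P8H6.Orb2.almost T hT
  refine ⟨c, C, hc, hC, fun n V hn hV => (le_of_eq ?_).trans (h n V hn hV)⟩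
  rw [← Set.ncard_coe_finset, Nat.cast_inj]
  congr 1
  ext v
  unfold Exceptional Pool.Agent.P8H6.Orb2.Exc
  rw [Set.mem_ofPred_eq, mem_coe, mem_filter, Fintype.mem_piFinset]
  unfold Pool.Agent.P8H6.Orb2.IsExc AllLengths Pool.Agent.P8H6.Orb2.Nf
  simp only [count_eq]

end Pool.Agent.Results.MP_0fefc4_nt.PatternsOfTimes
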