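import Mathlib
import Pool.Agent.P8H77.SG.Times

/-!
# Every sufficiently large multiple of six is a sum of three first return times of `x ↦ 2 x - 1` to the primes

Let `S x = 2 x - 1`. The question is whether there are infinitely many primes `p` for which `S p` is prime. Call `t` a
first return time of `p` if `p` and `S^t(p)` are prime and `S(p), ..., S^(t-1)(p)` are composite; the question is
whether `1` is the first return time of infinitely many primes.

Let `D` be the set of the times `t ≥ 1` with the following property: for every length `l` there are, for arbitrarily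
large `x`, progressions `m, m + D, ..., m + (l - 1) D` of `l` primes all of which have the first return time `t`, with a
difference `D ≤ (log x) ^ C`, and at least `x / (log x) ^ C` of them with `m ≤ x`. Theorem: every sufficiently large
multiple `n` of `6` is a sum of three elements of `D`, in at least `c n ^ 2` ways (`c > 0`). Hence the iterate `S^n` is
the composition of three iterates, each of which maps the primes of many long progressions to primes.

The proof. The coloured Maynard-Tao theorem along narrow progressions (starting files, `Pool.Agent.Y827.RO.narR`)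
gives: any four classes of `K` times contain two times of different classes whose difference is in `D`
(`Pool.Agent.P8H13.AD.consI`). Suppose that arbitrarily large `n = 6 k` have few representations as a sum of three
elements of `D`. Then there are long increasing sequences `b` of highly divisible numbers, `b j = q (u j + v j ^ 2)`,
such that no relation `n = t₁ + t₂ + t₃` arises from the numbers below. Consider, along ultrafilters, the sets of the
`z` for which `b j - b i + z`, `n - (b j - b i) + z`, `n / 2 - (b j - b i) + z` and `n / 3 ± (b j - b i) + z` are in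
`D`. The second and the third set are not empty, since `D` has no long holes (translation of two classes into a hole).
Four classes `b i, b i + x, n - t + b i, n - t + b i + x` show that the first set `R` is closed under addition and
subtraction, so that it is the group of all multiples of `1`, `2` or `3`. The second case contradicts the fact that `n`
is not the sum of two elements near `n / 2` and one element of `R`; the third case contradicts that `n` is not the sum
of three elements near `n / 3`.
-/

set_option autoImplicit false

namespace Pool.Agent.Results.MP_0fefc4_nt.SumsOfThreeTimes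

open Filter

/-- the map `x ↦ 2 x - 1` -/
def S (x : ℕ) : ℕ := 2 * x - 1

/-- `p` is a prime and `t` is the least positive time at which the iterate of `S` at `p` is prime -/
def FirstReturn (t p : ℕ) : Prop :=
  p.Prime ∧ (S^[t] p).Prime ∧ ∀ s : ℕ, 0 < s → s < t → ¬ (S^[s] p).Prime

/-- For every length `l` there is `C` such that for arbitrarily large `x` there is a difference
`1 ≤ D ≤ (log x) ^ C` for which at least `x / (log x) ^ C` of the `1 ≤ m ≤ x` are such that all the `l` numbers
`p = m, m + D, ..., m + (l - 1) D` are primes with the first return time `t`. -/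
def AllLengths (t : ℕ) : Prop := ∀ l : ℕ, ∃ C : ℕ, ∃ᶠ x : ℕ in atTop, ∃ D : ℕ, 1 ≤ D ∧
  (D : ℝ) ≤ Real.log x ^ C ∧ (x : ℝ) / Real.log x ^ C ≤
    ({m : ℕ | 1 ≤ m ∧ m ≤ x ∧ ∀ j < l, FirstReturn t (m + j * D)}.ncard : ℝ)

theorem iter_eq (p t : ℕ) (hp : 1 ≤ p) : S^[t] p = Pool.Agent.P8H13.AD.gI t p := by
  unfold Pool.Agent.P8H13.AD.gI
  induction t with
  | zero => simp; omega
  | succ t ih =>
    rw [Function.iterate_succ_apply', ih]
    unfold S
    rw [pow_succ]
    have : 2 * (2 ^ t * (p - 1) + 1) = 2 ^ t * 2 * (p - 1) + 2 := by ring
    omega

theorem firstReturn_iff (t p : ℕ) : FirstReturn t p ↔ Pool.Agent.P8H13.AD.RetP t p := by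
  unfold FirstReturn Pool.Agent.P8H13.AD.RetP
  constructor
  · rintro ⟨h1, h2, h3⟩
    have hp := h1.one_lt.le
    exact ⟨h1, by rw [← iter_eq p t hp]; exact h2, fun s hs hst => by
      rw [← iter_eq p s hp]; exact h3 s hs hst⟩
  · rintro ⟨h1, h2, h3⟩
    have hp := h1.one_lt.le
    exact ⟨h1, by rw [iter_eq p t hp]; exact h2, fun s hs hst => by
      rw [iter_eq p s hp]; exact h3 s hs hst⟩

theorem of_narT {t : ℕ} (h : Pool.Agent.P8H77.SG.NarT t) : AllLengths t := by
  classical
  intro l
  obtain ⟨C, hC⟩ := h l
  refine ⟨C, hC.mono ?_⟩
  rintro x ⟨D, h1, h2, h3⟩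
  refine ⟨D, h1, h2, h3.trans (le_of_eq ?_)⟩
  unfold Pool.Agent.P8H13.AD.cR
  rw [← Set.ncard_coe_finset]
  congr 2
  ext m
  rw [Finset.mem_coe, Finset.mem_filter, Finset.mem_Icc, Set.mem_ofPred_eq, and_assoc]
  simp only [firstReturn_iff]

/-- There is `c > 0` such that every sufficiently large multiple `n` of `6` has at least `c n ^ 2`
representations `n = t 0 + t 1 + t 2` with positive integers `t i` such that there are many narrow arithmetic
progressions of every length of primes with the first return time `t i`. -/
theorem result : ∃ c : ℝ, 0 < c ∧ ∀ᶠ n : ℕ in atTop, 6 ∣ n → c * (n : ℝ) ^ 2 ≤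
    ({t : Fin 3 → ℕ | n = t 0 + t 1 + t 2 ∧ ∀ i, 0 < t i ∧ AllLengths (t i)}.ncard : ℝ) :=
  Pool.Agent.P8H77.SG.three_times AllLengths fun _ h => of_narT h

end Pool.Agent.Results.MP_0fefc4_nt.SumsOfThreeTimes
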